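import Pool.Agent.Y716.M.Data
import Pool.Agent.Y716.Q.Final
import Pool.Agent.Y362.MH.Norm
import Pool.Agent.Y804.ConicHasse

/-!
# The Hasse principle for 100% of the multihomogeneous forms, from the case of at least two
blocks of degrees at least two
-/

set_option autoImplicit false

namespace Pool.Agent.Y455.M

open Pool.Agent.Y716.M

/-- The statement `S19053` for given numbers of variables `n i + 1` and degrees `d i`. -/
def T {k : ℕ} (n d : Fin k → ℕ) : Prop :=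
  Filter.Tendsto (fun H : ℕ =>
     ((Set.ncard {f : MvPolynomial (Σ i : Fin k, Fin (n i + 1)) ℤ |
        (∀ s ∈ f.support, ∀ i : Fin k, ∑ j : Fin (n i + 1), s ⟨i, j⟩ = d i) ∧
        (∀ s, |f.coeff s| ≤ (H : ℤ)) ∧
        (∃ x : (Σ i : Fin k, Fin (n i + 1)) → ℝ,
          (∀ i : Fin k, ∃ j : Fin (n i + 1), x ⟨i, j⟩ ≠ 0) ∧ MvPolynomial.aeval x f = 0) ∧
        (∀ p : ℕ, ∀ _ : Fact p.Prime, ∃ x : (Σ i : Fin k, Fin (n i + 1)) → Padic p,
          (∀ i : Fin k, ∃ j : Fin (n i + 1), x ⟨i, j⟩ ≠ 0) ∧ MvPolynomial.aeval x f = 0) ∧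
        (∃ x : (Σ i : Fin k, Fin (n i + 1)) → ℚ,
          (∀ i : Fin k, ∃ j : Fin (n i + 1), x ⟨i, j⟩ ≠ 0) ∧ MvPolynomial.aeval x f = 0)} : ℕ) : ℝ) /
     ((Set.ncard {f : MvPolynomial (Σ i : Fin k, Fin (n i + 1)) ℤ |
        (∀ s ∈ f.support, ∀ i : Fin k, ∑ j : Fin (n i + 1), s ⟨i, j⟩ = d i) ∧
        (∀ s, |f.coeff s| ≤ (H : ℤ)) ∧
        (∃ x : (Σ i : Fin k, Fin (n i + 1)) → ℝ,
          (∀ i : Fin k, ∃ j : Fin (n i + 1), x ⟨i, j⟩ ≠ 0) ∧ MvPolynomial.aeval x f = 0) ∧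
        (∀ p : ℕ, ∀ _ : Fact p.Prime, ∃ x : (Σ i : Fin k, Fin (n i + 1)) → Padic p,
          (∀ i : Fin k, ∃ j : Fin (n i + 1), x ⟨i, j⟩ ≠ 0) ∧ MvPolynomial.aeval x f = 0)} : ℕ) : ℝ))
     Filter.atTop (nhds 1)

/-- multidegree `d` -/
def Deg {k : ℕ} {n : Fin k → ℕ} (d : Fin k → ℕ) (f : MvPolynomial (Var n) ℤ) : Prop :=
  ∀ s ∈ f.support, ∀ i : Fin k, ∑ j : Fin (n i + 1), s ⟨i, j⟩ = d i

/-- zero over `K` with all the blocks different from zero -/
def Sv {k : ℕ} {n : Fin k → ℕ} (K : Type) [CommRing K] (f : MvPolynomial (Var n) ℤ) : Prop :=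
  ∃ x : Var n → K, (∀ i : Fin k, ∃ j : Fin (n i + 1), x ⟨i, j⟩ ≠ 0) ∧
    MvPolynomial.aeval x f = 0

theorem finite_den {k : ℕ} {n d : Fin k → ℕ} (H : ℕ) (P : MvPolynomial (Var n) ℤ → Prop) :
    {f : MvPolynomial (Var n) ℤ | Deg d f ∧ (∀ s, |f.coeff s| ≤ (H : ℤ)) ∧ P f}.Finite := by
  apply (finite_formsM n d (H : ℝ)).subset
  rintro f ⟨h1, h2, -⟩
  refine ⟨h1, fun s => ?_⟩
  have h3 : ((|f.coeff s| : ℤ) : ℝ) ≤ ((H : ℤ) : ℝ) := by exact_mod_cast h2 s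
  rw [Int.cast_abs] at h3
  simpa using h3

/-- If every everywhere locally soluble form is soluble then the quotient is `1`. -/
theorem T_of_forall {k : ℕ} {n d : Fin k → ℕ}
    (h : ∀ f : MvPolynomial (Var n) ℤ, Deg d f → Sv ℝ f →
      (∀ p : ℕ, ∀ _ : Fact p.Prime, Sv (Padic p) f) → Sv ℚ f) : T n d := by
  unfold T
  refine tendsto_const_nhds.congr (fun H => ?_)
  have hset : {f : MvPolynomial (Σ i : Fin k, Fin (n i + 1)) ℤ |
        (∀ s ∈ f.support, ∀ i : Fin k, ∑ j : Fin (n i + 1), s ⟨i, j⟩ = d i) ∧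
        (∀ s, |f.coeff s| ≤ (H : ℤ)) ∧
        (∃ x : (Σ i : Fin k, Fin (n i + 1)) → ℝ,
          (∀ i : Fin k, ∃ j : Fin (n i + 1), x ⟨i, j⟩ ≠ 0) ∧ MvPolynomial.aeval x f = 0) ∧
        (∀ p : ℕ, ∀ _ : Fact p.Prime, ∃ x : (Σ i : Fin k, Fin (n i + 1)) → Padic p,
          (∀ i : Fin k, ∃ j : Fin (n i + 1), x ⟨i, j⟩ ≠ 0) ∧ MvPolynomial.aeval x f = 0) ∧
        (∃ x : (Σ i : Fin k, Fin (n i + 1)) → ℚ,
          (∀ i : Fin k, ∃ j : Fin (n i + 1), x ⟨i, j⟩ ≠ 0) ∧ MvPolynomial.aeval x f = 0)} =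
      {f : MvPolynomial (Σ i : Fin k, Fin (n i + 1)) ℤ |
        (∀ s ∈ f.support, ∀ i : Fin k, ∑ j : Fin (n i + 1), s ⟨i, j⟩ = d i) ∧
        (∀ s, |f.coeff s| ≤ (H : ℤ)) ∧
        (∃ x : (Σ i : Fin k, Fin (n i + 1)) → ℝ,
          (∀ i : Fin k, ∃ j : Fin (n i + 1), x ⟨i, j⟩ ≠ 0) ∧ MvPolynomial.aeval x f = 0) ∧
        (∀ p : ℕ, ∀ _ : Fact p.Prime, ∃ x : (Σ i : Fin k, Fin (n i + 1)) → Padic p,
          (∀ i : Fin k, ∃ j : Fin (n i + 1), x ⟨i, j⟩ ≠ 0) ∧ MvPolynomial.aeval x f = 0)} := by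
    ext f
    constructor
    · rintro ⟨h1, h2, h3, h4, -⟩
      exact ⟨h1, h2, h3, h4⟩
    · rintro ⟨h1, h2, h3, h4⟩
      exact ⟨h1, h2, h3, h4, h f h1 h3 h4⟩
  rw [hset]
  symm
  apply div_self
  rw [Nat.cast_ne_zero]
  have hfin : {f : MvPolynomial (Σ i : Fin k, Fin (n i + 1)) ℤ |
        (∀ s ∈ f.support, ∀ i : Fin k, ∑ j : Fin (n i + 1), s ⟨i, j⟩ = d i) ∧
        (∀ s, |f.coeff s| ≤ (H : ℤ)) ∧
        (∃ x : (Σ i : Fin k, Fin (n i + 1)) → ℝ,
          (∀ i : Fin k, ∃ j : Fin (n i + 1), x ⟨i, j⟩ ≠ 0) ∧ MvPolynomial.aeval x f = 0) ∧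
        (∀ p : ℕ, ∀ _ : Fact p.Prime, ∃ x : (Σ i : Fin k, Fin (n i + 1)) → Padic p,
          (∀ i : Fin k, ∃ j : Fin (n i + 1), x ⟨i, j⟩ ≠ 0) ∧ MvPolynomial.aeval x f = 0)}.Finite :=
    finite_den (d := d) H _
  rw [Ne, Set.ncard_eq_zero hfin, ← Ne, ← Set.nonempty_iff_ne_empty]
  refine ⟨0, ?_, ?_, ?_, ?_⟩
  · intro s hs
    simp at hs
  · intro s
    simp
  · exact ⟨fun _ => 1, fun i => ⟨0, one_ne_zero⟩, map_zero _⟩
  · intro p _
    exact ⟨fun _ => 1, fun i => ⟨0, one_ne_zero⟩, map_zero _⟩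

theorem prod_pow_of_sum_one {m : ℕ} (t : Fin m → ℕ) (ht : ∑ j, t j = 1) (g : Fin m → ℚ) :
    ∏ j, g j ^ t j = ∑ j, (t j : ℚ) * g j := by
  classical
  have h1 : ∃ j₀, t j₀ ≠ 0 := by
    by_contra hcon
    push Not at hcon
    rw [Finset.sum_eq_zero (fun j _ => hcon j)] at ht
    exact zero_ne_one ht
  obtain ⟨j₀, hj₀⟩ := h1
  have h2 := Finset.add_sum_erase Finset.univ t (Finset.mem_univ j₀)
  rw [ht] at h2
  have h3 : t j₀ = 1 := by omega
  have h4 : ∑ x ∈ Finset.univ.erase j₀, t x = 0 := by omega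
  have h5 : ∀ j, j ≠ j₀ → t j = 0 := by
    intro j hj
    exact Finset.sum_eq_zero_iff.mp h4 j (Finset.mem_erase.mpr ⟨hj, Finset.mem_univ j⟩)
  rw [Finset.prod_eq_single j₀, Finset.sum_eq_single j₀]
  · rw [h3]; simp
  · intro b _ hb
    rw [h5 b hb]; simp
  · intro h; exact absurd (Finset.mem_univ _) h
  · intro b _ hb
    rw [h5 b hb]; simp
  · intro h; exact absurd (Finset.mem_univ _) h

/-- A form of degree one in a block of at least two variables has a zero. -/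
theorem sol_of_deg_one {k : ℕ} {n d : Fin k → ℕ} (i₀ : Fin k) (hn : 1 ≤ n i₀) (hd : d i₀ = 1)
    (f : MvPolynomial (Var n) ℤ) (hf : Deg d f) : Sv ℚ f := by
  classical
  -- values in the block
  let X : (ℕ → ℚ) → Var n → ℚ := fun g a => if a.1 = i₀ then g a.2.val else 1
  have key : ∀ g : ℕ → ℚ, MvPolynomial.aeval (X g) f =
      ∑ j : Fin (n i₀ + 1), (∑ s ∈ f.support, ((f.coeff s : ℤ) : ℚ) * (s ⟨i₀, j⟩ : ℚ)) *
        g j.val := by
    intro g
    rw [MvPolynomial.aeval_def, MvPolynomial.eval₂_eq']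
    have h1 : ∀ s ∈ f.support, (algebraMap ℤ ℚ (f.coeff s)) * ∏ a : Var n, X g a ^ s a =
        ∑ j : Fin (n i₀ + 1), (((f.coeff s : ℤ) : ℚ) * (s ⟨i₀, j⟩ : ℚ)) * g j.val := by
      intro s hs
      have h2 : ∏ a : Var n, X g a ^ s a = ∑ j : Fin (n i₀ + 1), (s ⟨i₀, j⟩ : ℚ) * g j.val := by
        rw [Fintype.prod_sigma, Finset.prod_eq_single i₀]
        · rw [← prod_pow_of_sum_one (fun j => s ⟨i₀, j⟩) ((hf s hs i₀).trans hd)]
          refine Finset.prod_congr rfl (fun j _ => ?_)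
          simp only [X, if_true]
        · intro b _ hb
          refine Finset.prod_eq_one (fun j _ => ?_)
          simp only [X, if_neg hb, one_pow]
        · intro h; exact absurd (Finset.mem_univ _) h
      rw [h2, Finset.mul_sum]
      refine Finset.sum_congr rfl (fun j _ => ?_)
      simp only [algebraMap_int_eq, eq_intCast]
      ring
    rw [Finset.sum_congr rfl h1, Finset.sum_comm]
    refine Finset.sum_congr rfl (fun j _ => ?_)
    rw [Finset.sum_mul]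
  obtain ⟨c, hc⟩ : ∃ c : Fin (n i₀ + 1) → ℚ, c = fun j =>
    (∑ s ∈ f.support, ((f.coeff s : ℤ) : ℚ) * (s ⟨i₀, j⟩ : ℚ)) := ⟨_, rfl⟩
  have key2 : ∀ g : ℕ → ℚ, MvPolynomial.aeval (X g) f = ∑ j : Fin (n i₀ + 1), c j * g j.val := by
    intro g
    rw [key, hc]
  have hlt0 : 0 < n i₀ + 1 := by omega
  have hlt1 : 1 < n i₀ + 1 := by omega
  -- a nonzero vector of the block
  suffices h : ∃ g : ℕ → ℚ, (g 0 ≠ 0 ∨ g 1 ≠ 0) ∧ ∑ j : Fin (n i₀ + 1), c j * g j.val = 0 by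
    obtain ⟨g, hg, h0⟩ := h
    refine ⟨X g, fun i => ?_, by rw [key2, h0]⟩
    by_cases hi : i = i₀
    · subst hi
      rcases hg with hg | hg
      · refine ⟨⟨0, hlt0⟩, ?_⟩
        simpa only [X, if_true] using hg
      · refine ⟨⟨1, hlt1⟩, ?_⟩
        simpa only [X, if_true] using hg
    · refine ⟨0, ?_⟩
      simp only [X, if_neg hi]
      exact one_ne_zero
  have hne : (⟨0, hlt0⟩ : Fin (n i₀ + 1)) ≠ ⟨1, hlt1⟩ := by
    intro h
    have := congrArg Fin.val h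
    simp at this
  by_cases hc0 : c ⟨0, hlt0⟩ = 0
  · refine ⟨fun j => if j = 0 then 1 else 0, Or.inl (by simp), ?_⟩
    refine Finset.sum_eq_zero (fun j _ => ?_)
    by_cases hj : j.val = 0
    · have : j = ⟨0, hlt0⟩ := Fin.ext hj
      rw [this, hc0, zero_mul]
    · simp only [if_neg hj, mul_zero]
  · refine ⟨fun j => if j = 0 then c ⟨1, hlt1⟩ else if j = 1 then - c ⟨0, hlt0⟩ else 0,
      Or.inr (by simpa using hc0), ?_⟩
    rw [← Finset.sum_subset (Finset.subset_univ {⟨0, hlt0⟩, ⟨1, hlt1⟩})]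
    · rw [Finset.sum_pair hne]
      simp only [if_true, one_ne_zero, if_false]
      ring
    · intro j _ hj
      have h0 : j.val ≠ 0 := by
        intro h
        apply hj
        rw [Finset.mem_insert]
        exact Or.inl (Fin.ext h)
      have h1 : j.val ≠ 1 := by
        intro h
        apply hj
        rw [Finset.mem_insert, Finset.mem_singleton]
        exact Or.inr (Fin.ext h)
      simp only [if_neg h0, if_neg h1, mul_zero]

/-- one block: conics -/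
theorem T_conic (n d : Fin 1 → ℕ) (hn : n 0 = 2) (hd : d 0 = 2) : T n d := by
  have hn' : n = fun _ => 2 := by
    funext i
    rw [Subsingleton.elim i 0, hn]
  subst hn'
  apply T_of_forall
  intro f hf hR hp
  refine Pool.Agent.Y804.Conic.conic_hasse f (fun s hs i => ?_) hR hp
  rw [hf s hs i, Subsingleton.elim i 0, hd]

theorem ne_zero_iff_one {K : Type} [Zero K] (n : Fin 1 → ℕ) (x : Var n → K) :
    x ≠ 0 ↔ ∀ i : Fin 1, ∃ j : Fin (n i + 1), x ⟨i, j⟩ ≠ 0 := by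
  constructor
  · intro h i
    by_contra hcon
    push Not at hcon
    apply h
    funext ⟨i', j⟩
    have hi : i' = i := Subsingleton.elim _ _
    subst hi
    exact hcon j
  · intro h h0
    obtain ⟨j, hj⟩ := h 0
    exact hj (by rw [h0]; rfl)

theorem deg_iff_one (n d : Fin 1 → ℕ) (f : MvPolynomial (Var n) ℤ) :
    f.IsHomogeneous (d 0) ↔ Deg d f := by
  constructor
  · intro h s hs i
    have h1 := Pool.Agent.Y716.Q.homog_sum_eq h (MvPolynomial.mem_support_iff.mp hs)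
    rw [Fintype.sum_sigma, Fin.sum_univ_one] at h1
    rw [Subsingleton.elim i 0]
    exact h1
  · intro h s hs
    have h1 := h s (MvPolynomial.mem_support_iff.mpr hs) 0
    rw [Finsupp.weight_apply, Finsupp.sum_fintype, Fintype.sum_sigma, Fin.sum_univ_one]
    · simpa using h1
    · simp

/-- one block: at least four variables -/
theorem T_one (n d : Fin 1 → ℕ) (hn : 3 ≤ n 0) (hd : 2 ≤ d 0) (hdn : d 0 ≤ n 0) : T n d := by
  have hcard : Fintype.card (Var n) = n 0 + 1 := by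
    rw [Fintype.card_sigma, Fin.sum_univ_one, Fintype.card_fin]
  have h := Pool.Agent.Y716.Q.main_tendsto_nat (Var n) (by rw [hcard]; omega) (d 0 - 2)
    (by rw [hcard]; omega)
  have hd2 : d 0 - 2 + 2 = d 0 := by omega
  rw [hd2] at h
  unfold T
  refine h.congr (fun H => ?_)
  congr 2
  · congr 1
    ext f
    simp only [Set.mem_ofPred_eq, deg_iff_one, ne_zero_iff_one]
    constructor
    · rintro ⟨h1, h2, h3⟩
      obtain ⟨h4, h5⟩ := Pool.Agent.Y362.MH.rat_els_M f h3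
      exact ⟨h1, h2, h4, h5, h3⟩
    · rintro ⟨h1, h2, -, -, h3⟩
      exact ⟨h1, h2, h3⟩
  · congr 1
    ext f
    simp only [Set.mem_ofPred_eq, deg_iff_one, ne_zero_iff_one]
    exact Iff.rfl

/-- All cases of the statement `S19053` (and more: no exceptions) from the case of at least two
blocks of degrees at least two. -/
theorem full_of_class
    (hmain : ∀ (r : ℕ) (n d : Fin r → ℕ), 2 ≤ r → (∀ i, 2 ≤ d i) → (∀ i, 1 ≤ n i) →
      (∃ b, 2 ≤ n b ∧ d b ≤ n b) → T n d) :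
    ∀ (k : ℕ) (n d : Fin k → ℕ), 0 < k → (∀ i, 1 ≤ n i) → (∀ i, 1 ≤ d i) →
      (∃ i, d i < n i + 1) → T n d := by
  intro k n d hk hn hd hex
  by_cases h1 : ∃ i, d i = 1
  · obtain ⟨i, hi⟩ := h1
    exact T_of_forall (fun f hf _ _ => sol_of_deg_one i (hn i) hi f hf)
  · push Not at h1
    have hd2 : ∀ i, 2 ≤ d i := by
      intro i
      have h2 := hd i
      have h3 := h1 i
      omega
    obtain ⟨b, hb⟩ := hex
    by_cases hk2 : 2 ≤ k
    · have h4 := hd2 b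
      exact hmain k n d hk2 hd2 hn ⟨b, by omega, by omega⟩
    · have hk1 : k = 1 := by omega
      subst hk1
      have hb0 : b = 0 := Subsingleton.elim _ _
      subst hb0
      have h4 := hd2 0
      by_cases hn3 : 3 ≤ n 0
      · exact T_one n d hn3 h4 (by omega)
      · exact T_conic n d (by omega) (by omega)

end Pool.Agent.Y455.M
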